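import Pool.Agent.Helper76.RD.Goals3

/-!
# Project RD, packet RF-FRB: `ζ` and `ζ ^ p` have the same minimal polynomial over the `p`-adic
integers
-/

namespace Pool.Agent.Helper20.RD

open Polynomial Pool.Agent.Helper51.RP

/-- A polynomial over the `p`-adic integers whose reduction vanishes is divisible by `p`. -/
theorem exists_of_map_eq_zero {p : ℕ} [hp : Fact p.Prime] (F : ℤ_[p][X])
    (hF : F.map PadicInt.toZMod = 0) : ∃ W : ℤ_[p][X], F = C (p : ℤ_[p]) * W := by
  have h : C (p : ℤ_[p]) ∣ F := by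
    rw [C_dvd_iff_dvd_coeff]
    intro n
    have h2 : PadicInt.toZMod (F.coeff n) = 0 := by
      rw [← coeff_map, hF, coeff_zero]
    rwa [← RingHom.mem_ker, PadicInt.ker_toZMod, PadicInt.maximalIdeal_eq_span_p,
      Ideal.mem_span_singleton] at h2
  exact h

/-- Coprimality lifts from the residue field for a monic polynomial. -/
theorem isUnit_mk {p : ℕ} [hp : Fact p.Prime] (F G : ℤ_[p][X]) (hF : F.Monic)
    (h : IsCoprime (F.map PadicInt.toZMod) (G.map PadicInt.toZMod)) :
    IsUnit (AdjoinRoot.mk F G) := by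
  obtain ⟨u, v, huv⟩ := h
  obtain ⟨U, rfl⟩ := Polynomial.map_surjective _ (ZMod.ringHom_surjective
    (PadicInt.toZMod : ℤ_[p] →+* ZMod p)) u
  obtain ⟨V, rfl⟩ := Polynomial.map_surjective _ (ZMod.ringHom_surjective
    (PadicInt.toZMod : ℤ_[p] →+* ZMod p)) v
  obtain ⟨W, hW⟩ := exists_of_map_eq_zero (U * F + V * G - 1) (by
    rw [Polynomial.map_sub, Polynomial.map_add, Polynomial.map_mul, Polynomial.map_mul, huv,
      Polynomial.map_one, sub_self])
  have hfin : Module.Finite ℤ_[p] (AdjoinRoot F) := hF.finite_adjoinRoot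
  set J : Ideal (AdjoinRoot F) := Ideal.span {AdjoinRoot.mk F G} with hJ
  have hJt : J = ⊤ := by
    have h1 : (⊤ : Submodule ℤ_[p] (AdjoinRoot F)) ≤ J.restrictScalars ℤ_[p] := by
      refine Submodule.le_of_le_smul_of_le_jacobson_bot (I := Ideal.span {(p : ℤ_[p])})
        Module.Finite.fg_top ?_ ?_
      · rw [IsLocalRing.jacobson_eq_maximalIdeal ⊥ bot_ne_top, PadicInt.maximalIdeal_eq_span_p]
      · intro b _
        have e : b = AdjoinRoot.mk F (V * G) * b - (p : ℤ_[p]) • (AdjoinRoot.mk F W * b) := by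
          have e1 : AdjoinRoot.mk F (U * F + V * G - 1) = AdjoinRoot.mk F (C (p : ℤ_[p]) * W) := by
            rw [hW]
          rw [map_sub, map_add, map_mul, AdjoinRoot.mk_self, mul_zero, zero_add, map_one,
            map_mul, map_mul, AdjoinRoot.mk_C] at e1
          have e2 : AdjoinRoot.mk F V * AdjoinRoot.mk F G -
              AdjoinRoot.of F (p : ℤ_[p]) * AdjoinRoot.mk F W = 1 := by
            rw [← e1]
            ring
          rw [Algebra.smul_def, AdjoinRoot.algebraMap_eq, map_mul]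
          calc b = 1 * b := (one_mul b).symm
            _ = _ := by rw [← e2]; ring
        rw [e]
        refine Submodule.sub_mem _ (Submodule.mem_sup_left ?_) (Submodule.mem_sup_right ?_)
        · show _ ∈ J
          rw [hJ, Ideal.mem_span_singleton, map_mul]
          exact ⟨AdjoinRoot.mk F V * b, by ring⟩
        · exact Submodule.smul_mem_smul (Ideal.mem_span_singleton_self _) trivial
    rw [Ideal.eq_top_iff_one]
    exact h1 (x := 1) trivial
  exact Ideal.span_singleton_eq_top.1 hJt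

/-- RF-FRB. -/
theorem e_frb : Pool.Agent.Helper76.RD.E_FRB := by
  intro p hp k _ _ m ζ Φ P h
  have hp0 : p ≠ 0 := hp.out.ne_zero
  refine ⟨h.copm, h.one_lt, h.prim.pow_of_coprime p h.copm.symm, h.monic, h.dvd, ?_, h.map, h.irr,
    h.deg, h.cop, h.dvdP⟩
  obtain ⟨Ψ, hΨ⟩ := h.dvd
  -- the cofactor is prime to `P`
  have hcop : IsCoprime P (Ψ.map PadicInt.toZMod) := by
    have hm : ((m : ℕ) : ZMod p) ≠ 0 := by
      rw [Ne, ZMod.natCast_eq_zero_iff]
      intro hd
      exact hp.out.one_lt.ne' (Nat.eq_one_of_dvd_coprimes h.copm hd dvd_rfl)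
    have h1 : (X ^ m - 1 : (ZMod p)[X]).Separable := by
      have h3 := separable_X_pow_sub_C_unit (R := ZMod p) (n := m) 1 (isUnit_iff_ne_zero.2 hm)
      simpa using h3
    have h2 : (X ^ m - 1 : (ZMod p)[X]) = P * Ψ.map PadicInt.toZMod := by
      rw [h.map, ← Polynomial.map_mul, ← hΨ]
      simp
    rw [h2] at h1
    exact h1.isCoprime
  have hcop2 : IsCoprime (Φ.map PadicInt.toZMod)
      ((expand ℤ_[p] p Ψ).map (PadicInt.toZMod : ℤ_[p] →+* ZMod p)) := by
    rw [map_expand, ZMod.expand_card, ← h.map]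
    exact hcop.pow_right
  have hu := isUnit_mk Φ (expand ℤ_[p] p Ψ) h.monic hcop2
  have hd : Φ ∣ expand ℤ_[p] p Φ := by
    rw [← AdjoinRoot.mk_eq_zero]
    have h3 : AdjoinRoot.mk Φ (expand ℤ_[p] p Φ * expand ℤ_[p] p Ψ) = 0 := by
      rw [AdjoinRoot.mk_eq_zero, ← map_mul, ← hΨ]
      refine h.dvd.trans ?_
      rw [map_sub, map_pow, expand_X, map_one, ← pow_mul, mul_comm p m, pow_mul]
      exact sub_one_dvd_pow_sub_one _ _
    rw [map_mul] at h3
    exact (hu.mul_left_eq_zero).1 h3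
  obtain ⟨Q, hQ⟩ := hd
  have h4 : eval₂ ((algebraMap ℚ_[p] k).comp (algebraMap ℤ_[p] ℚ_[p])) ζ (expand ℤ_[p] p Φ) = 0 := by
    rw [hQ, eval₂_mul, h.root, zero_mul]
  rwa [expand_eq_comp_X_pow, eval₂_comp, eval₂_pow, eval₂_X] at h4

end Pool.Agent.Helper20.RD
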